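import Pool.Agent.Helper85.PCP.GDefs

/-! # `GPCP(1)` is decidable -/

namespace PCP4

/-- the equation for the exponent `k` -/
def gp1_E (k : ℕ) (J : GInst 1 ℕ) : Prop :=
  J.2.1.1 ++ (List.replicate k (J.1 0).1).flatten ++ J.2.2.1 =
    J.2.1.2 ++ (List.replicate k (J.1 0).2).flatten ++ J.2.2.2

/-- the bound for the exponent -/
def gp1_b (J : GInst 1 ℕ) : ℕ :=
  J.2.1.1.length + J.2.1.2.length + J.2.2.1.length + J.2.2.2.length

theorem gp1_flat (f : Fin 1 → List ℕ) (w : List (Fin 1)) :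
    w.flatMap f = (List.replicate w.length (f 0)).flatten := by
  induction w with
  | nil => rfl
  | cons a w ih =>
    rw [List.flatMap_cons, List.length_cons, List.replicate_succ, List.flatten_cons, ih,
      Subsingleton.elim a 0]

theorem gp1_iff (h : ST_GPB) (J : GInst 1 ℕ) : GPos J ↔ ∃ k < gp1_b J + 1, gp1_E k J := by
  constructor
  · rintro ⟨w, hw⟩
    rw [gp1_flat (fun i => (J.1 i).1), gp1_flat (fun i => (J.1 i).2)] at hw
    obtain ⟨k', hk', h1⟩ := h _ _ _ _ _ _ _ hw
    exact ⟨k', Nat.lt_succ_of_le hk', h1⟩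
  · rintro ⟨k, -, hk⟩
    refine ⟨List.replicate k 0, ?_⟩
    rw [gp1_flat (fun i => (J.1 i).1), gp1_flat (fun i => (J.1 i).2), List.length_replicate]
    exact hk

theorem gp1_rep : Primrec₂ (fun (k : ℕ) (u : List ℕ) => (List.replicate k u).flatten) := by
  have h1 : Primrec₂ (fun (u : List ℕ) (p : ℕ × List ℕ) => u ++ p.2) :=
    Primrec.list_append.comp₂ Primrec₂.left (Primrec.snd.comp₂ Primrec₂.right)
  have h2 : Primrec₂ (fun (u : List ℕ) (k : ℕ) =>
      (Nat.rec ([] : List ℕ) (fun _ r => u ++ r) k : List ℕ)) :=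
    Primrec.nat_rec (Primrec.const []) h1
  refine (h2.swap).of_eq ?_
  intro k u
  induction k with
  | zero => rfl
  | succ k ih =>
    rw [List.replicate_succ, List.flatten_cons, ← ih]

theorem gp1_prim : PrimrecRel gp1_E := by
  have a1 : Primrec (fun q : ℕ × GInst 1 ℕ => q.2.1 0) :=
    Primrec.fin_app.comp (Primrec.fst.comp Primrec.snd) (Primrec.const 0)
  have a2 : Primrec (fun q : ℕ × GInst 1 ℕ => (List.replicate q.1 (q.2.1 0).1).flatten) :=
    gp1_rep.comp Primrec.fst (Primrec.fst.comp a1)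
  have a3 : Primrec (fun q : ℕ × GInst 1 ℕ => (List.replicate q.1 (q.2.1 0).2).flatten) :=
    gp1_rep.comp Primrec.fst (Primrec.snd.comp a1)
  have b0 : Primrec (fun q : ℕ × GInst 1 ℕ => q.2.2) := Primrec.snd.comp Primrec.snd
  have b1 : Primrec (fun q : ℕ × GInst 1 ℕ => q.2.2.1) := Primrec.fst.comp b0
  have b2 : Primrec (fun q : ℕ × GInst 1 ℕ => q.2.2.2) := Primrec.snd.comp b0
  have l : Primrec (fun q : ℕ × GInst 1 ℕ => q.2.2.1.1 ++
      (List.replicate q.1 (q.2.1 0).1).flatten ++ q.2.2.2.1) :=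
    Primrec.list_append.comp (Primrec.list_append.comp (Primrec.fst.comp b1) a2)
      (Primrec.fst.comp b2)
  have r : Primrec (fun q : ℕ × GInst 1 ℕ => q.2.2.1.2 ++
      (List.replicate q.1 (q.2.1 0).2).flatten ++ q.2.2.2.2) :=
    Primrec.list_append.comp (Primrec.list_append.comp (Primrec.snd.comp b1) a3)
      (Primrec.snd.comp b2)
  exact Primrec.eq.comp l r

theorem gp1_bprim : Primrec gp1_b := by
  have b0 : Primrec (fun q : GInst 1 ℕ => q.2) := Primrec.snd
  have b1 : Primrec (fun q : GInst 1 ℕ => q.2.1) := Primrec.fst.comp b0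
  have b2 : Primrec (fun q : GInst 1 ℕ => q.2.2) := Primrec.snd.comp b0
  exact Primrec.nat_add.comp (Primrec.nat_add.comp (Primrec.nat_add.comp
    (Primrec.list_length.comp (Primrec.fst.comp b1))
    (Primrec.list_length.comp (Primrec.snd.comp b1)))
    (Primrec.list_length.comp (Primrec.fst.comp b2)))
    (Primrec.list_length.comp (Primrec.snd.comp b2))

theorem st_GP1 (h : ST_GPB) : ST_GP1 := by
  have h0 : PrimrecRel (fun (l : List ℕ) (J : GInst 1 ℕ) => ∃ k ∈ l, gp1_E k J) :=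
    PrimrecRel.exists_mem_list gp1_prim
  have h1 : PrimrecPred (fun J : GInst 1 ℕ => ∃ k < gp1_b J + 1, gp1_E k J) :=
    (h0.comp (f := fun J => List.range (gp1_b J + 1)) (g := fun J => J)
      (Primrec.list_range.comp (Primrec.succ.comp gp1_bprim)) Primrec.id).of_eq
      (fun J => by simp only [List.mem_range])
  have h2 : ComputablePred (fun J : GInst 1 ℕ => ∃ k < gp1_b J + 1, gp1_E k J) := by
    obtain ⟨hd, hp⟩ := h1
    exact ⟨hd, hp.to_comp⟩
  exact h2.of_eq (fun J => (gp1_iff h J).symm)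

end PCP4
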